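import Pool.Agent.U396.SA.PPB
import Pool.Agent.U167.SA.Stm3

/-!
Package PPM of project SA: elementary properties of the arm probabilities with a fixed configuration in a box
(bounds, convergence, monotonicity, positivity). After `Pool.Agent.U396.SA.PPB`.
-/

set_option autoImplicit false

namespace Pool.Agent.U891.SA

open H974 Finset Filter Topology
open Pool.Agent.U167.SA Pool.Agent.U396.SA

theorem md_mono (m : ℕ) (η : Finset Edg) {F F' : Finset Edg} (h : F ⊆ F') : md m η F ⊆ md m η F' :=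
  Finset.union_subset_union (Finset.sdiff_subset_sdiff h le_rfl) le_rfl

theorem Hitm_incr (m : ℕ) (η : Finset Edg) (G : Set Edg) (A : Set Vtx) (n : ℤ) (S : Finset Edg) :
    IncrE S (fun F => Hit G A n (md m η F)) :=
  fun _ _ h _ hF => Hit_mono subset_rfl subset_rfl (md_mono m η h) hF

theorem PMm_nonneg (m : ℕ) (η : Finset Edg) (G : Set Edg) (A : Set Vtx) (n : ℤ) (M : ℕ) :
    0 ≤ PMm m η G A n M :=
  Pr_nonneg okh _ _

theorem PMm_le_one (m : ℕ) (η : Finset Edg) (G : Set Edg) (A : Set Vtx) (n : ℤ) (M : ℕ) :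
    PMm m η G A n M ≤ 1 :=
  Pr_le_one okh _ _

theorem PMm_monotone (m : ℕ) (η : Finset Edg) (G : Set Edg) (A : Set Vtx) (n : ℤ) :
    Monotone (PMm m η G A n) := by
  intro M M' h
  exact Pr_mono_set okh (H974.boxE_mono h) (Hitm_incr m η G A n _)

theorem PMm_bdd (m : ℕ) (η : Finset Edg) (G : Set Edg) (A : Set Vtx) (n : ℤ) :
    BddAbove (Set.range (PMm m η G A n)) :=
  ⟨1, by rintro _ ⟨M, rfl⟩; exact PMm_le_one m η G A n M⟩

theorem PMm_le_PPm (m : ℕ) (η : Finset Edg) (G : Set Edg) (A : Set Vtx) (n : ℤ) (M : ℕ) :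
    PMm m η G A n M ≤ PPm m η G A n :=
  le_ciSup (PMm_bdd m η G A n) M

theorem PPm_nonneg (m : ℕ) (η : Finset Edg) (G : Set Edg) (A : Set Vtx) (n : ℤ) :
    0 ≤ PPm m η G A n :=
  (PMm_nonneg m η G A n 0).trans (PMm_le_PPm m η G A n 0)

theorem PPm_le_one (m : ℕ) (η : Finset Edg) (G : Set Edg) (A : Set Vtx) (n : ℤ) :
    PPm m η G A n ≤ 1 :=
  ciSup_le (PMm_le_one m η G A n)

theorem PMm_tendsto (m : ℕ) (η : Finset Edg) (G : Set Edg) (A : Set Vtx) (n : ℤ) :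
    Tendsto (PMm m η G A n) atTop (𝓝 (PPm m η G A n)) :=
  tendsto_atTop_ciSup (PMm_monotone m η G A n) (PMm_bdd m η G A n)

theorem PPm_anti (m : ℕ) (η : Finset Edg) (G : Set Edg) (A : Set Vtx) {n n' : ℤ}
    (hA : ∀ v ∈ A, col v ≤ n) (h : n ≤ n') : PPm m η G A n' ≤ PPm m η G A n := by
  apply ciSup_mono (PMm_bdd m η G A n)
  intro M
  apply Pr_mono okh
  rintro F - ⟨u, hu, v, hv, hr⟩
  obtain ⟨w, hw, hr'⟩ := visit (hA u hu) hr (by omega)
  exact ⟨u, hu, w, hw, hr'⟩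

theorem PPm_pos {m : ℕ} {η : Finset Edg} {G : Set Edg} {A : Set Vtx} {n : ℤ}
    (h : ∃ u ∈ A, ∃ v, col v = n ∧ Reach (({e | e ∉ boxE m} ∪ ↑η) ∩ G) u v) :
    0 < PPm m η G A n := by
  obtain ⟨u, hu, v, hv, hr⟩ := h
  obtain ⟨T, hT, hr'⟩ := finite_reach hr
  obtain ⟨M, hM⟩ := exists_box T
  refine lt_of_lt_of_le ?_ (PMm_le_PPm m η G A n M)
  apply Pr_pos_of_full
  refine ⟨u, hu, v, hv, hr'.mono ?_⟩
  intro e he
  obtain ⟨h1, h2⟩ := hT he
  refine ⟨?_, h2⟩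
  have h3 := hM (Finset.mem_coe.mp he)
  rcases h1 with h1 | h1
  · exact Finset.mem_coe.mpr (Finset.mem_union_left _ (Finset.mem_sdiff.mpr ⟨h3, h1⟩))
  · exact Finset.mem_coe.mpr (Finset.mem_union_right _ (Finset.mem_coe.mp h1))

theorem t_PPM : PPMStm :=
  ⟨fun m η G A n => ⟨PPm_nonneg m η G A n, PPm_le_one m η G A n⟩, PMm_monotone, PMm_tendsto,
    fun m η G A _ _ hA h => PPm_anti m η G A hA h, fun _ _ _ _ _ h => PPm_pos h⟩

end Pool.Agent.U891.SA
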